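import Pool.Agent.Q207.CF.Unif

/-!
# A class forcing whose truth lemma fails over every countable transitive model

The definitions used here: formulas of set theory `Fml`, truth `Sat` in a class, transitive models
`IsZF`, `IsZFC` of ZF and ZFC (`Pool.Agent.W868.Defs`); names `IsName`, evaluation `val`, the
extension `Ext` = `M[G]`, filters, dense sets, generic filters `IsGeneric`, the forcing relation
`Forces` and `TruthLemma` (`Pool.Agent.Q207.CF.Defs`).
-/

set_option autoImplicit false

namespace Pool.Agent.Results.MP_1a1aec_lc.Yes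

open Pool.Agent.W868 (Fml Sat IsZF IsZFC)
open Q207.CF

/-- The class of the conditions: the class defined over `M` by the formula `δ`. -/
def Cls (δ : Fml Empty 1) (M : Set ZFSet.{0}) : Set ZFSet.{0} :=
  {p | p ∈ M ∧ Sat M Empty.elim δ ![p]}

/-- The order of the conditions: the relation defined over `M` by the formula `ρ`. -/
def Rel (ρ : Fml Empty 2) (M : Set ZFSet.{0}) (p q : ZFSet.{0}) : Prop :=
  Sat M Empty.elim ρ ![p, q]

/-- `le` is a partial order on the nonempty class `P`. -/
structure IsOrder (P : Set ZFSet.{0}) (le : ZFSet.{0} → ZFSet.{0} → Prop) : Prop where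
  nonempty : P.Nonempty
  refl : ∀ p ∈ P, le p p
  antisymm : ∀ p ∈ P, ∀ q ∈ P, le p q → le q p → p = q
  trans : ∀ p ∈ P, ∀ q ∈ P, ∀ r ∈ P, le p q → le q r → le p r

/-- **Theorem.** There are formulas `δ` and `ρ` without parameters that define a partial order in
every transitive model `M` of ZF, such that the truth lemma for this forcing fails over `M` for
all countable transitive models `M` of ZF, in particular for those of ZFC. This holds for every
class `S` of sets that are admitted as parameters in the definitions of the dense sets, in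
particular for `S = M` and for `S = ∅`. -/
theorem result : ∃ (δ : Fml Empty 1) (ρ : Fml Empty 2), ∀ M : Set ZFSet.{0}, IsZF M →
    IsOrder (Cls δ M) (Rel ρ M) ∧
    (M.Countable → ∀ S ⊆ M, ¬ TruthLemma S M (Cls δ M) (Rel ρ M)) := by
  obtain ⟨δ, hδ⟩ := ud_fcond
  obtain ⟨ρ, hρ⟩ := ud_fle
  refine ⟨δ, ρ, fun M hM => ?_⟩
  have h1 : Cls δ M = {p | FCond M p} := by
    ext p
    constructor
    · rintro ⟨hp, h⟩
      exact (hδ M hM ![p] (fun i => by fin_cases i; exact hp)).1 h
    · intro h
      have hp := fcond_mem hM h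
      exact ⟨hp, (hδ M hM ![p] (fun i => by fin_cases i; exact hp)).2 h⟩
  have h2 : ∀ p ∈ M, ∀ q ∈ M, (Rel ρ M p q ↔ FLe p q) := by
    intro p hp q hq
    refine hρ M hM ![p, q] fun i => ?_
    fin_cases i
    · exact hp
    · exact hq
  have h3 : ∀ p ∈ {p | FCond M p}, ∀ q ∈ {p | FCond M p}, (Rel ρ M p q ↔ FLe p q) :=
    fun p hp q hq => h2 p (fcond_mem hM hp) q (fcond_mem hM hq)
  rw [h1]
  refine ⟨⟨⟨one, fcond_one⟩, fun p hp => (h3 p hp p hp).2 (fle_refl hp),
    fun p hp q hq h h' => fle_antisymm hp hq ((h3 p hp q hq).1 h) ((h3 q hq p hp).1 h'),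
    fun p hp q hq r hr h h' =>
      (h3 p hp r hr).2 (fle_trans ((h3 p hp q hq).1 h) ((h3 q hq r hr).1 h'))⟩,
    fun hc S hS h => ?_⟩
  exact not_truthLemma hM hc hS (truthLemma_congr h3 h)

end Pool.Agent.Results.MP_1a1aec_lc.Yes
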